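import Pool.Agent.Helper43.PD.Plane

/-!
# Rigid Seifert circles: definitions

A visit `p` of a Seifert circle to a crossing is named after the edge `p` on which it leaves. `lf p = true`: the crossing is on the right side
of the circle of `p` (the circle of `p` is the left one at the crossing `{p, op p}`).
-/

set_option autoImplicit false

namespace Pool.Agent.Helper60.S4

open Pool.Agent.Helper85.Exp Pool.Agent.Helper43.Pln

variable {P : Type}

/-- `e` and `e'` are on the same Seifert circle. -/
def Same (G : Sh P) (e e' : P) : Prop := (seifert G).SameCycle e e'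

/-- The circle of `e` has crossings on both sides. -/
def TwoSided (G : Sh P) (e : P) : Prop := ∀ d : Bool, ∃ p, Same G e p ∧ G.lf p = d

/-- The circle of `e` has crossings on one side only. -/
def OneSided (G : Sh P) (e : P) : Prop := ∃ d : Bool, ∀ p, Same G e p → G.lf p = d

/-- All crossings on the side `d` of the circle of `e` are crossings with the circle of `f`. -/
def Only (G : Sh P) (d : Bool) (e f : P) : Prop := ∀ p, Same G e p → G.lf p = d → Same G f (G.op p)

/-- All crossings on the side `d` of the circle of `e` are crossings with the circles of `f` and `g`. -/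
def Only2 (G : Sh P) (d : Bool) (e f g : P) : Prop := ∀ p, Same G e p → G.lf p = d → Same G f (G.op p) ∨ Same G g (G.op p)

/-- **Rigid**, first kind: one neighbour on each side, both one-sided. -/
def Rig11 (G : Sh P) (a : P) : Prop := TwoSided G a ∧ ∃ x y, OneSided G x ∧ OneSided G y ∧ Only G false a x ∧ Only G true a y

/-- **Rigid**, second kind: at most two neighbours `x`, `b` on the side `d`, one neighbour `y` on the other side, all one-sided; `b` has no other neighbour
than `a`. -/
def Rig21 (G : Sh P) (a : P) : Prop := TwoSided G a ∧ ∃ (d : Bool) (x b y : P), OneSided G x ∧ OneSided G b ∧ OneSided G y ∧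
  Only2 G d a x b ∧ Only G (!d) a y ∧ Only G (!d) b a

/-- **Rigid**, third kind: `c` is the only neighbour of `a` on the side `d`, `a` is the only neighbour of `c` on the side `!d`, and both have one
further neighbour, which is one-sided. -/
def RigP (G : Sh P) (a : P) : Prop := TwoSided G a ∧ ∃ (d : Bool) (c x y : P), TwoSided G c ∧ OneSided G x ∧ OneSided G y ∧
  Only G d a c ∧ Only G (!d) c a ∧ Only G (!d) a x ∧ Only G d c y

/-- A rigid circle. -/
def Rigid (G : Sh P) (a : P) : Prop := Rig11 G a ∨ Rig21 G a ∨ RigP G a

end Pool.Agent.Helper60.S4
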