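import Pool.Agent.Helper2.PD.Corners
import Pool.Agent.Helper60.S4.RDefs

/-!
# With at most four Seifert circles every two-sided circle is rigid
-/

set_option autoImplicit false

namespace Pool.Agent.Helper60.S4

open Pool.Agent.Helper85.Exp Pool.Agent.Helper2.PD Pool.Agent.Helper43.Pln

variable {P : Type} {G : Sh P}

/-- Levels of the circles, which rise on the side `d`. -/
structure Lv (G : Sh P) (d : Bool) (μ : P → ℤ) : Prop where
  same : ∀ {e e' : P}, Same G e e' → μ e' = μ e
  up : ∀ {p : P}, G.lf p = d → μ (G.op p) = μ p + 1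
  down : ∀ {p : P}, G.lf p = (!d) → μ (G.op p) = μ p - 1

theorem Lv.flip {d : Bool} {μ : P → ℤ} (h : Lv G d μ) : Lv G (!d) (fun p => -μ p) where
  same h1 := by rw [h.same h1]
  up h1 := by rw [h.down h1]; ring
  down h1 := by rw [Bool.not_not] at h1; rw [h.up h1]; ring

theorem exists_lv [Fintype P] (hG : Plane G) : ∃ μ : P → ℤ, Lv G false μ := by
  obtain ⟨κ, hκ⟩ := exists_kappa hG.conn hG.cross hG.genus
  have ho := hG.cross
  have dn : ∀ {p : P}, G.lf p = true → κ (Lf G (G.op p)) = κ (Lf G p) - 1 := by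
    intro p hp
    rw [hκ p, corner_N hp]
    ring
  have st : ∀ e : P, κ (Lf G (seifert G e)) = κ (Lf G e) := by
    intro e
    show κ (Lf G (G.op (G.nxt e))) = κ (Lf G e)
    cases h : G.lf (G.nxt e) with
    | true =>
      have h1 := corner_E h (ho _)
      rw [Equiv.symm_apply_apply] at h1
      rw [hκ, hκ e, h1]
    | false =>
      have h1 : G.lf (G.op (G.nxt e)) = true := by rw [G.lf_op _ (ho _), h]; rfl
      have h2 := corner_W h1 (ho _)
      rw [G.op_op, Equiv.symm_apply_apply] at h2
      rw [h2]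
  refine ⟨fun e => κ (Lf G e), ?_, ?_, fun hp => dn hp⟩
  · intro e e' h
    have h' : (seifert G).SameCycle e e' := h
    obtain ⟨n, rfl⟩ := h'.exists_nat_pow_eq
    clear h h'
    induction n with
    | zero => rfl
    | succ n ih =>
      rw [pow_succ', Equiv.Perm.mul_apply]
      show κ (Lf G (seifert G _)) = _
      rw [st]
      exact ih
  · intro p hp
    have h1 : G.lf (G.op p) = true := by rw [G.lf_op _ (ho _), hp]; rfl
    have h2 := dn h1
    rw [G.op_op] at h2
    show κ (Lf G (G.op p)) = κ (Lf G p) + 1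
    omega

theorem cover [Fintype P] (h4 : circles G ≤ 4) {a x y w : P} (h1 : ¬ Same G a x) (h2 : ¬ Same G a y) (h3 : ¬ Same G a w) (h5 : ¬ Same G x y)
    (h6 : ¬ Same G x w) (h7 : ¬ Same G y w) (e : P) : Same G a e ∨ Same G x e ∨ Same G y e ∨ Same G w e := by
  by_contra hcon
  push Not at hcon
  obtain ⟨h8, h9, h10, h11⟩ := hcon
  let F : Fin 5 → Quotient (Equiv.Perm.SameCycle.setoid (seifert G)) :=
    ![Quotient.mk _ a, Quotient.mk _ x, Quotient.mk _ y, Quotient.mk _ w, Quotient.mk _ e]
  have hlt : ∀ i j : Fin 5, i < j → F i ≠ F j := by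
    intro i j hij h
    fin_cases i <;> fin_cases j <;> first
      | exact absurd hij (by decide)
      | exact h1 (Quotient.exact h)
      | exact h2 (Quotient.exact h)
      | exact h3 (Quotient.exact h)
      | exact h5 (Quotient.exact h)
      | exact h6 (Quotient.exact h)
      | exact h7 (Quotient.exact h)
      | exact h8 (Quotient.exact h)
      | exact h9 (Quotient.exact h)
      | exact h10 (Quotient.exact h)
      | exact h11 (Quotient.exact h)
  have hinj : Function.Injective F := by
    intro i j h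
    rcases lt_trichotomy i j with h' | h' | h'
    · exact absurd h (hlt i j h')
    · exact h'
    · exact absurd h.symm (hlt j i h')
  have : Finite (Quotient (Equiv.Perm.SameCycle.setoid (seifert G))) := Quotient.finite _
  have h12 := Nat.card_le_card_of_injective F hinj
  have h13 : Nat.card (Quotient (Equiv.Perm.SameCycle.setoid (seifert G))) = circles G := rfl
  rw [h13, Nat.card_fin] at h12
  omega

theorem ne_of_lv {d : Bool} {μ : P → ℤ} (hμ : Lv G d μ) {x y : P} (h : μ y ≠ μ x) : ¬ Same G x y := fun h1 => h (hμ.same h1)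

theorem eq_or (b d : Bool) : b = d ∨ b = !d := by cases b <;> cases d <;> simp

/-- The coherent case. -/
theorem caseP [Fintype P] (h4 : circles G ≤ 4) {d : Bool} {μ : P → ℤ} (hμ : Lv G d μ) {a x : P} (h2 : TwoSided G a) (hx : μ x = μ a + 1)
    (hx2 : TwoSided G x) : RigP G a := by
  obtain ⟨q, hq, hql⟩ := h2 (!d)
  obtain ⟨r, hr, hrl⟩ := hx2 d
  have hy : μ (G.op q) = μ a - 1 := by rw [hμ.down hql, hμ.same hq]
  have hw : μ (G.op r) = μ a + 2 := by rw [hμ.up hrl, hμ.same hr, hx]; ring
  have cov := cover h4 (a := a) (x := x) (y := G.op q) (w := G.op r) (ne_of_lv hμ (by omega)) (ne_of_lv hμ (by omega)) (ne_of_lv hμ (by omega))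
    (ne_of_lv hμ (by omega)) (ne_of_lv hμ (by omega)) (ne_of_lv hμ (by omega))
  refine ⟨h2, d, x, G.op q, G.op r, hx2, ⟨d, fun p hp => ?_⟩, ⟨!d, fun p hp => ?_⟩, fun p hp hl => ?_, fun p hp hl => ?_, fun p hp hl => ?_,
    fun p hp hl => ?_⟩
  · refine (eq_or (G.lf p) d).resolve_right fun hl => ?_
    have h5 := hμ.down hl
    rw [hμ.same hp] at h5
    rcases cov (G.op p) with h | h | h | h <;> have h6 := hμ.same h <;> omega
  · refine (eq_or (G.lf p) d).resolve_left fun hl => ?_
    have h5 := hμ.up hl
    rw [hμ.same hp] at h5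
    rcases cov (G.op p) with h | h | h | h <;> have h6 := hμ.same h <;> omega
  · have h5 := hμ.up hl
    rw [hμ.same hp] at h5
    rcases cov (G.op p) with h | h | h | h <;> have h6 := hμ.same h
    · omega
    · exact h
    · omega
    · omega
  · have h5 := hμ.down hl
    rw [hμ.same hp] at h5
    rcases cov (G.op p) with h | h | h | h <;> have h6 := hμ.same h
    · exact h
    · omega
    · omega
    · omega
  · have h5 := hμ.down hl
    rw [hμ.same hp] at h5
    rcases cov (G.op p) with h | h | h | h <;> have h6 := hμ.same h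
    · omega
    · omega
    · exact h
    · omega
  · have h5 := hμ.up hl
    rw [hμ.same hp] at h5
    rcases cov (G.op p) with h | h | h | h <;> have h6 := hμ.same h
    · omega
    · omega
    · omega
    · exact h

/-- Two neighbours on the side `d`. -/
theorem case21 [Fintype P] (h4 : circles G ≤ 4) {d : Bool} {μ : P → ℤ} (hμ : Lv G d μ) {a x b : P} (h2 : TwoSided G a) (hx : μ x = μ a + 1)
    (hb : μ b = μ a + 1) (hxb : ¬ Same G x b) : Rig21 G a := by
  obtain ⟨q, hq, hql⟩ := h2 (!d)
  have hy : μ (G.op q) = μ a - 1 := by rw [hμ.down hql, hμ.same hq]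
  have cov := cover h4 (a := a) (x := x) (y := b) (w := G.op q) (ne_of_lv hμ (by omega)) (ne_of_lv hμ (by omega)) (ne_of_lv hμ (by omega))
    hxb (ne_of_lv hμ (by omega)) (ne_of_lv hμ (by omega))
  refine ⟨h2, d, x, b, G.op q, ⟨!d, fun p hp => ?_⟩, ⟨!d, fun p hp => ?_⟩, ⟨d, fun p hp => ?_⟩, fun p hp hl => ?_, fun p hp hl => ?_,
    fun p hp hl => ?_⟩
  · refine (eq_or (G.lf p) d).resolve_left fun hl => ?_
    have h5 := hμ.up hl
    rw [hμ.same hp] at h5
    rcases cov (G.op p) with h | h | h | h <;> have h6 := hμ.same h <;> omega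
  · refine (eq_or (G.lf p) d).resolve_left fun hl => ?_
    have h5 := hμ.up hl
    rw [hμ.same hp] at h5
    rcases cov (G.op p) with h | h | h | h <;> have h6 := hμ.same h <;> omega
  · refine (eq_or (G.lf p) d).resolve_right fun hl => ?_
    have h5 := hμ.down hl
    rw [hμ.same hp] at h5
    rcases cov (G.op p) with h | h | h | h <;> have h6 := hμ.same h <;> omega
  · have h5 := hμ.up hl
    rw [hμ.same hp] at h5
    rcases cov (G.op p) with h | h | h | h <;> have h6 := hμ.same h
    · omega
    · exact Or.inl h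
    · exact Or.inr h
    · omega
  · have h5 := hμ.down hl
    rw [hμ.same hp] at h5
    rcases cov (G.op p) with h | h | h | h <;> have h6 := hμ.same h
    · omega
    · omega
    · omega
    · exact h
  · have h5 := hμ.down hl
    rw [hμ.same hp] at h5
    rcases cov (G.op p) with h | h | h | h <;> have h6 := hμ.same h
    · exact h
    · omega
    · omega
    · omega

theorem one_of_not_two {x : P} (h : ¬ TwoSided G x) : OneSided G x := by
  unfold TwoSided at h
  push Not at h
  obtain ⟨d, hd⟩ := h
  exact ⟨!d, fun p hp => (eq_or (G.lf p) d).resolve_left (hd p hp)⟩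

/-- **At most four Seifert circles**: every circle with crossings on both sides is rigid. -/
theorem rigid_four [Fintype P] (hG : Plane G) (h4 : circles G ≤ 4) {a : P} (h2 : TwoSided G a) : Rigid G a := by
  obtain ⟨μ, hμ⟩ := exists_lv hG
  have hμ' := hμ.flip
  obtain ⟨p, hp, hpl⟩ := h2 false
  obtain ⟨q, hq, hql⟩ := h2 true
  have hx : μ (G.op p) = μ a + 1 := by rw [hμ.up hpl, hμ.same hp]
  have hy : -μ (G.op q) = -μ a + 1 := by
    have h5 := hμ.down hql
    rw [hμ.same hq] at h5
    omega
  by_cases h5 : TwoSided G (G.op p)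
  · exact Or.inr (Or.inr (caseP h4 hμ h2 hx h5))
  by_cases h6 : TwoSided G (G.op q)
  · exact Or.inr (Or.inr (caseP h4 hμ' h2 hy h6))
  by_cases h7 : Only G false a (G.op p)
  · by_cases h8 : Only G true a (G.op q)
    · exact Or.inl ⟨h2, G.op p, G.op q, one_of_not_two h5, one_of_not_two h6, h7, h8⟩
    · unfold Only at h8
      push Not at h8
      obtain ⟨r, hr, hrl, hn⟩ := h8
      refine Or.inr (Or.inl (case21 h4 hμ' (x := G.op q) (b := G.op r) h2 hy ?_ hn))
      have h9 := hμ.down hrl
      rw [hμ.same hr] at h9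
      omega
  · unfold Only at h7
    push Not at h7
    obtain ⟨r, hr, hrl, hn⟩ := h7
    refine Or.inr (Or.inl (case21 h4 hμ (x := G.op p) (b := G.op r) h2 hx ?_ hn))
    rw [hμ.up hrl, hμ.same hr]

end Pool.Agent.Helper60.S4
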