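import Pool.Agent.Helper2.V8B.MixB
import Pool.Agent.Helper60.S4.RFour

/-!
# At most four Seifert circles, at most eight twist regions: the conditions of the criterion
-/

set_option autoImplicit false

namespace Pool.Agent.Helper60.S4

open Pool.Agent.Helper85.Exp Pool.Agent.Helper2.PD Pool.Agent.Helper43.Pln Pool.Agent.Helper2.V8B

variable {P : Type} {G : Sh P}

theorem side_zero {I : P → Prop} {p : P} {d : Bool} (h : ∀ q, Same G p q → G.lf q = d) : side G I (!d) p = 0 := by
  unfold side
  have : IsEmpty {q : P // (seifert G).SameCycle p q ∧ ¬ I q ∧ G.lf q = !d} := by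
    refine ⟨fun q => ?_⟩
    have h1 := h q.1 q.2.1
    rw [q.2.2.2] at h1
    cases d <;> simp at h1
  rw [Nat.card_of_isEmpty]

/-- A one-sided circle has the weight zero at `α = 0`. -/
theorem weight_zero {I : P → Prop} {p : P} (h : OneSided G p) : weight 0 G I p = 0 := by
  obtain ⟨d, hd⟩ := h
  have h1 := side_zero (I := I) hd
  unfold weight
  cases d with
  | true =>
    rw [show side G I false p = 0 from h1]
    simp
  | false =>
    rw [show side G I true p = 0 from h1]
    simp

/-- **At most four Seifert circles**: the conditions of the criterion hold for every `I` and `α = 0`. -/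
theorem hw_four [Fintype P] (hG : Plane G) (h4 : circles G ≤ 4) (I : P → Prop) (p : P) (hp : ¬ Rigid G p) (hop : ¬ Rigid G (G.op p)) :
    weight 0 G I p + weight 0 G I (G.op p) ≤ √3 + 9 / 10 * 0 ∧
      (Two G I p → weight 0 G I p + weight 0 G I (G.op p) ≤ 5 / 3 + 0) := by
  rw [weight_zero (one_of_not_two fun h => hp (rigid_four hG h4 h)), weight_zero (one_of_not_two fun h => hop (rigid_four hG h4 h))]
  constructor
  · have := Real.sqrt_nonneg 3
    linarith
  · intro _
    norm_num

theorem lf_other [Fintype P] (hG : Plane G) (p : P) : ¬ Same G p (G.op p) := by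
  intro h
  obtain ⟨μ, hμ⟩ := exists_lv hG
  have h1 := hμ.same h
  rcases eq_or (G.lf p) false with h2 | h2
  · have h3 := hμ.up h2
    omega
  · have h3 := hμ.down h2
    omega

open Classical in
theorem total_card [Fintype P] (I : P → Prop) (p : P) : total G I p = (Finset.univ.filter fun q => (seifert G).SameCycle p q ∧ ¬ I q).card := by
  unfold total side
  rw [Nat.card_eq_fintype_card, Nat.card_eq_fintype_card, Fintype.card_subtype, Fintype.card_subtype, ← Finset.card_union_of_disjoint]
  · congr 1
    ext q
    simp only [Finset.mem_union, Finset.mem_filter, Finset.mem_univ, true_and]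
    constructor
    · rintro (⟨h1, h2, -⟩ | ⟨h1, h2, -⟩) <;> exact ⟨h1, h2⟩
    · rintro ⟨h1, h2⟩
      cases h : G.lf q with
      | true => exact Or.inl ⟨h1, h2, rfl⟩
      | false => exact Or.inr ⟨h1, h2, rfl⟩
  · rw [Finset.disjoint_left]
    intro q h1 h2
    simp only [Finset.mem_filter, Finset.mem_univ, true_and] at h1 h2
    rw [h1.2.2] at h2
    exact absurd h2.2.2 (by simp)

/-- Two Seifert circles at a crossing have together at most twice as many twist regions as the diagram. -/
theorem total_le [Fintype P] (hG : Plane G) {I : P → Prop} (hI : Bigons G I) (p : P) :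
    total G I p + total G I (G.op p) ≤ 2 * Nat.card {q : P // ¬ I q ∧ G.lf q = true} := by
  classical
  have hI' : ∀ q, I (G.op q) ↔ I q := fun q => ⟨fun h => by have := hI.op _ h; rwa [G.op_op] at this, hI.op q⟩
  rw [total_card, total_card, ← Finset.card_union_of_disjoint]
  · have h1 : (Finset.univ.filter fun q => ¬ I q).card = 2 * Nat.card {q : P // ¬ I q ∧ G.lf q = true} := by
      rw [Nat.card_eq_fintype_card, Fintype.card_subtype]
      have h2 : (Finset.univ.filter fun q => ¬ I q ∧ G.lf q = true).card = (Finset.univ.filter fun q => ¬ I q ∧ G.lf q = false).card := by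
        refine Finset.card_bij (fun q _ => G.op q) ?_ ?_ ?_
        · intro q hq
          simp only [Finset.mem_filter, Finset.mem_univ, true_and] at hq ⊢
          refine ⟨fun h => hq.1 ((hI' q).1 h), ?_⟩
          rw [G.lf_op _ (hG.cross q), hq.2]
          rfl
        · intro q _ r _ h
          have := congrArg G.op h
          rwa [G.op_op, G.op_op] at this
        · intro q hq
          simp only [Finset.mem_filter, Finset.mem_univ, true_and] at hq
          refine ⟨G.op q, ?_, G.op_op q⟩
          simp only [Finset.mem_filter, Finset.mem_univ, true_and]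
          refine ⟨fun h => hq.1 ((hI' q).1 h), ?_⟩
          rw [G.lf_op _ (hG.cross q), hq.2]
          rfl
      have h3 : (Finset.univ.filter fun q => ¬ I q).card = (Finset.univ.filter fun q => ¬ I q ∧ G.lf q = true).card +
          (Finset.univ.filter fun q => ¬ I q ∧ G.lf q = false).card := by
        rw [← Finset.card_union_of_disjoint]
        · congr 1
          ext q
          simp only [Finset.mem_union, Finset.mem_filter, Finset.mem_univ, true_and]
          cases h : G.lf q <;> simp
        · rw [Finset.disjoint_left]
          intro q h1 h2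
          simp only [Finset.mem_filter, Finset.mem_univ, true_and] at h1 h2
          rw [h1.2] at h2
          exact absurd h2.2 (by simp)
      omega
    rw [← h1]
    refine Finset.card_le_card fun q hq => ?_
    simp only [Finset.mem_union, Finset.mem_filter, Finset.mem_univ, true_and] at hq ⊢
    rcases hq with h | h <;> exact h.2
  · rw [Finset.disjoint_left]
    intro q h1 h2
    simp only [Finset.mem_filter, Finset.mem_univ, true_and] at h1 h2
    exact lf_other hG p (h1.1.trans h2.1.symm)

end Pool.Agent.Helper60.S4
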