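import Pool.Agent.Helper2.V8B.Final
import Pool.Agent.Helper60.S4.HwFour

/-!
# The conditions of the criterion with twist regions and rigid circles: corollaries
-/

set_option autoImplicit false

namespace Pool.Agent.Helper60.S4

open Pool.Agent.Helper85.Exp Pool.Agent.Helper2.PD Pool.Agent.Helper43.Pln Pool.Agent.Helper2.V8B

variable {P : Type} [Fintype P] {G : Sh P}

omit [Fintype P] in
theorem not_op {I : P → Prop} (hI : Bigons G I) {p : P} (hp : ¬ I p) : ¬ I (G.op p) := fun h2 => hp (by
  have h3 := hI.op _ h2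
  rwa [G.op_op] at h3)

/-- The weights for at most 17 twist regions on the two circles. -/
theorem hw17R {I : P → Prop} (hI : Bigons G I)
    (h : ∀ p, ¬ I p → ¬ Rigid G p → ¬ Rigid G (G.op p) → total G I p + total G I (G.op p) ≤ 17) (p : P) (hp : ¬ I p) (hr : ¬ Rigid G p)
    (hr' : ¬ Rigid G (G.op p)) :
    weight 1 G I p + weight 1 G I (G.op p) ≤ √3 + 9 / 10 * 1 ∧
      (Two G I p → weight 1 G I p + weight 1 G I (G.op p) ≤ 5 / 3 + 1) := by
  have h1 := Pool.Agent.Helper43.V6.bet_pair (one_le_total (G := G) I hp) (one_le_total (G := G) I (not_op hI hp)) (h p hp hr hr')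
  unfold Pool.Agent.Helper59.V8.bet at h1
  have hs : √3 ≤ 1.7321 := by
    rw [Real.sqrt_le_left (by norm_num)]
    norm_num
  have hs' : 1.732 ≤ √3 := by
    apply Real.le_sqrt_of_sq_le
    norm_num
  unfold weight
  refine ⟨by linarith, fun _ => by linarith⟩

omit [Fintype P] in
/-- The weights for `l r ≤ 12`, and `l r ≤ 11` at the twist regions with exactly two crossings. -/
theorem hw12R {I : P → Prop} (hI : Bigons G I)
    (h : ∀ p, ¬ I p → ¬ Rigid G p → ¬ Rigid G (G.op p) → side G I false p * side G I true p ≤ 12 ∧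
      (Two G I p → side G I false p * side G I true p ≤ 11 ∧ side G I false (G.op p) * side G I true (G.op p) ≤ 11))
    (p : P) (hp : ¬ I p) (hr : ¬ Rigid G p) (hr' : ¬ Rigid G (G.op p)) :
    weight 0 G I p + weight 0 G I (G.op p) ≤ √3 + 9 / 10 * 0 ∧
      (Two G I p → weight 0 G I p + weight 0 G I (G.op p) ≤ 5 / 3 + 0) := by
  constructor
  · have h1 := Pool.Agent.Helper43.V6.geo_pair (h p hp hr hr').1 (h (G.op p) (not_op hI hp) hr' (by rw [G.op_op]; exact hr)).1
    unfold weight
    rw [mul_comm (side G I true p : ℝ), mul_comm (side G I true (G.op p) : ℝ)]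
    linarith
  · intro h2
    obtain ⟨h3, h4⟩ := (h p hp hr hr').2 h2
    have h5 : √((side G I false p : ℝ) * side G I true p) ≤ 10 / 3 :=
      sqrt_le_of (by norm_num) (le_trans (by exact_mod_cast h3) (by norm_num : (11 : ℝ) ≤ (10 / 3) ^ 2))
    have h6 : √((side G I false (G.op p) : ℝ) * side G I true (G.op p)) ≤ 10 / 3 :=
      sqrt_le_of (by norm_num) (le_trans (by exact_mod_cast h4) (by norm_num : (11 : ℝ) ≤ (10 / 3) ^ 2))
    unfold weight
    rw [mul_comm (side G I true p : ℝ), mul_comm (side G I true (G.op p) : ℝ)]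
    linarith

end Pool.Agent.Helper60.S4
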