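import Pool.Agent.Helper29.PD.LocP
import Pool.Agent.Helper60.S4.HwR

/-!
# The criterion with twist regions and rigid circles
-/

set_option autoImplicit false

namespace Pool.Agent.Helper60.S4

open Polynomial Pool.Agent.Helper85.Exp Pool.Agent.Helper60.EV2 Pool.Agent.Helper2.PD Pool.Agent.Helper43.Pln Pool.Agent.Helper2.V8B

variable {P : Type} [Fintype P] {G : Sh P}

/-- **The criterion** with conditions only at the twist regions which lie on no rigid circle. -/
theorem mainR (hG : Plane G) {α : ℝ} (h0 : 0 ≤ α) (h1 : α ≤ 1) {I : P → Prop} (hI : Bigons G I)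
    (hw : ∀ p, ¬ I p → ¬ Rigid G p → ¬ Rigid G (G.op p) → weight α G I p + weight α G I (G.op p) ≤ √3 + 9 / 10 * α ∧
      (Two G I p → weight α G I p + weight α G I (G.op p) ≤ 5 / 3 + α)) {nab : Dg G → ℤ[X]} (hn : Cs nab) :
    LogConcave G nab ∧ ∀ z : ℂ, aeval z (nab (allPos G)) = 0 → 3 * z.re ^ 2 ≤ z.im ^ 2 :=
  main_R (fun hs _ hc _ ha _ he => Pool.Agent.Helper29.LocP.locP hG hs hc ha he) hG h0 h1 hI hw hn

end Pool.Agent.Helper60.S4
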