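import Pool.Agent.Helper60.S4.Finish
import Pool.Agent.Helper2.S4.Good
import Pool.Agent.Helper57.S4.OneG
import Pool.Agent.Helper29.PD.CohT

/-!
# Positive diagrams with at most four Seifert circles: assembly
-/

set_option autoImplicit false

namespace Pool.Agent.Helper60.S4

open Polynomial Pool.Agent.Helper85.Exp Pool.Agent.Helper60.EV2 Pool.Agent.Helper2.PD Pool.Agent.Helper43.Pln Pool.Agent.Helper57.S4
open Pool.Agent.Helper69.S4 (Sec Triv Triv.zero exists_Sec lc_of_sector)

variable {P : Type} [Fintype P] {G : Sh P}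

omit [Fintype P] in
/-- The crossing relation in the notation of `Sy`. -/
theorem rel_of (ho : ∀ i, G.op i ≠ i) {s : ℂ} (h0 : s ≠ 0) {c : Face G → ℂ} (hc : Col G s c) (p : P) (hp : (sy G ho).lf p = true) :
    s⁻¹ * c ((sy G ho).R p) + s * c ((sy G ho).R ((sy G ho).sg.symm p)) = c ((sy G ho).L p) + c ((sy G ho).R ((sy G ho).op p)) := by
  have h1 := hc p hp
  have h6 : Rf G ((seifert G).symm p) = Lf G (G.nxt.symm p) := (corner_S hp).symm
  show s⁻¹ * c (Rf G p) + s * c (Rf G ((seifert G).symm p)) = c (Lf G p) + c (Rf G (G.op p))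
  rw [h6]
  have hss : s⁻¹ * s = 1 := inv_mul_cancel₀ h0
  linear_combination s⁻¹ * h1 - (s * c (Lf G (G.nxt.symm p)) - (c (Lf G p) + c (Rf G (G.op p)))) * hss

/-- A circle with crossings on both sides is two-sided in the sense of the faces. -/
theorem two_sided (ho : ∀ i, G.op i ≠ i) {p : P} (h : ¬ (sy G ho).One ((sy G ho).ci p)) : kf G (Lf G p) ≠ 0 ∧ kf G (Rf G p) ≠ 0 := by
  constructor
  · intro h0
    apply h
    have key : ∀ q, (sy G ho).ci q = (sy G ho).ci p → G.lf q = true := by
      intro q hq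
      have h2 : (seifert G).SameCycle p q := (Quotient.exact hq : (seifert G).SameCycle q p).symm
      have h3 := same_L ho h0 h2
      exact lf_of_zero_L ho (by rw [h3]; exact h0)
    intro q r hq hr
    rw [show (sy G ho).lf q = true from key q hq, show (sy G ho).lf r = true from key r hr]
  · intro h0
    apply h
    have key : ∀ q, (sy G ho).ci q = (sy G ho).ci p → G.lf q = false := by
      intro q hq
      have h2 : (seifert G).SameCycle p q := (Quotient.exact hq : (seifert G).SameCycle q p).symm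
      have h3 := same_R ho h0 h2
      exact lf_of_zero_R (by rw [h3]; exact h0)
    intro q r hq hr
    rw [show (sy G ho).lf q = false from key q hq, show (sy G ho).lf r = false from key r hr]

/-- **The end of the proof.** A colouring which is constant along the two-sided circles and vanishes at one edge vanishes. -/
theorem finish (hG : Plane G) {s : ℂ} (h0 : s ≠ 0) (h1 : ‖s‖ < 1) {c : Face G → ℂ} (hc : Col G s c)
    (hloc : ∀ e, kf G (Lf G e) ≠ 0 → kf G (Rf G e) ≠ 0 → c (Lf G (sq G e)) = c (Lf G e) ∧ c (Rf G (sq G e)) = c (Rf G e))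
    {b : P} (hL : c (Lf G b) = 0) (hR : c (Rf G b) = 0) : ∀ f, c f = 0 := by
  have ho := hG.cross
  have hrel := rel_of ho h0 hc
  have hone : ∀ p, ¬ (sy G ho).One ((sy G ho).ci p) → c (Lf G ((seifert G).symm p)) = c (Lf G p) ∧ c (Rf G ((seifert G).symm p)) = c (Rf G p) := by
    intro p hp
    have h2 : ¬ (sy G ho).One ((sy G ho).ci ((seifert G).symm p)) := by
      rw [show (sy G ho).ci ((seifert G).symm p) = (sy G ho).ci p from (sy G ho).ci_symm p]
      exact hp
    obtain ⟨h3, h4⟩ := two_sided ho h2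
    have h5 := hloc _ h3 h4
    have h6 : sq G ((seifert G).symm p) = p := (seifert G).apply_symm_apply p
    rw [h6] at h5
    exact ⟨h5.1.symm, h5.2.symm⟩
  have h2 := Sy.const_all (S := sy G ho) c s h0 h1.ne hrel (fun p hp => (hone p hp).1) (fun p hp => (hone p hp).2)
  exact Sy.zero_of_const (Pool.Agent.Helper2.S4.good_of G hG) c s hrel h2 b hL hR

/-- **Main lemma**: a colouring of a diagram with at most four circles which vanishes at one edge vanishes. -/
theorem zero_four (hG : Plane G) (h4 : circles G ≤ 4) {s : ℂ} (hs : Sec s) {c : Face G → ℂ} (hc : Col G s c) {b : P}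
    (hL : c (Lf G b) = 0) (hR : c (Rf G b) = 0) : ∀ f, c f = 0 := by
  rcases cases4 hG h4 with ⟨h1, -⟩ | h1 | ⟨-, -, ⟨f₀, h2, h3⟩, a, ha⟩
  · obtain ⟨κ, hκ⟩ := exists_kappa hG.conn hG.cross hG.genus
    exact (Pool.Agent.Helper29.PD.coh_Triv hG h1 h4 hs).zero hs hκ hc hL hR
  · exact finish hG hs.ne hs.lt hc (fun e h5 h6 => by rcases h1 e with h | h <;> contradiction) hL hR
  · refine finish hG hs.ne hs.lt hc (fun e h5 h6 => ?_) hL hR
    have h7 : S G a e := (ha e).1 (by push Not; exact ⟨h5, h6⟩)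
    exact ⟨one hG ha hs h2.le h3 hc h7 true, one hG ha hs h2.le h3 hc h7 false⟩

/-- **Main theorem.** -/
theorem main (hG : Plane G) (h4 : circles G ≤ 4) {nab : Dg G → ℤ[X]} (hn : Cs nab) :
    LogConcave G nab ∧ ∀ z : ℂ, aeval z (nab (allPos G)) = 0 → 3 * z.re ^ 2 ≤ z.im ^ 2 := by
  have hz : ∀ z : ℂ, aeval z (nab (allPos G)) = 0 → 3 * z.re ^ 2 ≤ z.im ^ 2 := by
    intro z hz
    by_contra hcon
    push Not at hcon
    obtain ⟨s, hs, rfl⟩ := exists_Sec hcon
    obtain ⟨c, b, h1, h2, ⟨f, hf⟩, h3⟩ := exists_col hG nab hn s hs.ne hz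
    apply hf
    refine zero_four hG h4 hs (c := c) (fun p hp => ?_) h1 h2 f
    have h5 := h3 p hp
    have hss : s * s⁻¹ = 1 := mul_inv_cancel₀ hs.ne
    linear_combination s * h5 - c (Rf G p) * hss
  exact ⟨lc_of_sector G hG nab hn (Or.inr hz), hz⟩

end Pool.Agent.Helper60.S4
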