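import Pool.Agent.Helper29.PD.Sch
import Pool.Agent.Helper60.PD.Full
import Pool.Agent.Helper43.PD.Plane

/-!
# Positive diagrams with at most four Seifert circles: definitions

`Sy P F`: the visits of the Seifert circles to the crossings. A visit `p` is named after the edge `p` on which it leaves; the edge on which it
enters is `sg⁻¹ p`. `op p` is the other visit of the same crossing; `lf p = true`: at the crossing `{p, op p}` the visit `p` is the left one
(the crossing lies on the right side of the circle of `p`). `L`, `R`: the faces on the two sides of an edge. `Ci`: the circles,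
`ci p`: the circle of `p`; `Adj i j`: there is a crossing with left circle `i` and right circle `j`.
-/

set_option autoImplicit false

namespace Pool.Agent.Helper60.S4

open Pool.Agent.Helper85.Exp Pool.Agent.Helper60.EV2 Pool.Agent.Helper2.PD Pool.Agent.Helper16.PD

/-- A system of Seifert circles with faces. -/
structure Sy (P F : Type) where
  sg : Equiv.Perm P
  op : P → P
  lf : P → Bool
  L : P → F
  R : P → F
  op_op : ∀ p, op (op p) = p
  lf_op : ∀ p, lf (op p) = !lf p
  west : ∀ p, lf p = true → L (sg.symm p) = L p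
  east : ∀ p, lf p = false → R (sg.symm p) = R p
  south : ∀ p, lf p = true → R (sg.symm p) = L (sg.symm (op p))
  north : ∀ p, lf p = true → R p = L (op p)

namespace Sy

variable {P F : Type} (S : Sy P F)

/-- The mirror image (seen from behind). -/
def mir : Sy P F where
  sg := S.sg
  op := S.op
  lf p := !S.lf p
  L := S.R
  R := S.L
  op_op := S.op_op
  lf_op p := by rw [S.lf_op]
  west p hp := S.east p (by simpa using hp)
  east p hp := S.west p (by simpa using hp)
  south p hp := by
    have h := S.south (S.op p) (by rw [S.lf_op]; exact hp)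
    rw [S.op_op] at h
    exact h.symm
  north p hp := by
    have h := S.north (S.op p) (by rw [S.lf_op]; exact hp)
    rw [S.op_op] at h
    exact h.symm

/-- The circles. -/
def Ci : Type := Quotient (Equiv.Perm.SameCycle.setoid S.sg)

/-- The circle of a visit. -/
def ci (p : P) : S.Ci := Quotient.mk _ p

instance [Finite P] : Finite S.Ci := Quotient.finite _

theorem ci_sg (p : P) : S.ci (S.sg p) = S.ci p :=
  Quotient.sound (Equiv.Perm.SameCycle.symm ⟨1, by simp⟩)

theorem ci_symm (p : P) : S.ci (S.sg.symm p) = S.ci p := by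
  have h := S.ci_sg (S.sg.symm p)
  rw [Equiv.apply_symm_apply] at h
  exact h.symm

/-- Left circle `i`, right circle `j`. -/
def Adj (i j : S.Ci) : Prop := ∃ p, S.lf p = true ∧ S.ci p = i ∧ S.ci (S.op p) = j

theorem adj_mir (i j : S.Ci) : S.mir.Adj i j ↔ S.Adj j i := by
  constructor
  · rintro ⟨p, h1, h2, h3⟩
    refine ⟨S.op p, ?_, h3, ?_⟩
    · rw [S.lf_op]
      exact h1
    · rw [S.op_op]
      exact h2
  · rintro ⟨p, h1, h2, h3⟩
    refine ⟨S.op p, ?_, h3, ?_⟩
    · show (!S.lf (S.op p)) = true
      rw [S.lf_op, h1]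
      rfl
    · show S.ci (S.op (S.op p)) = j
      rw [S.op_op]
      exact h2

/-- Conservation at the crossings. -/
def Circ (y : P → ℤ) : Prop := ∀ p, y (S.sg.symm p) + y (S.sg.symm (S.op p)) = y p + y (S.op p)

/-- Connected, of genus zero. -/
structure Good : Prop where
  surj : ∀ f, ∃ p, S.L p = f ∨ S.R p = f
  conn : ∀ T : S.Ci → Prop, (∀ i j, S.Adj i j → (T i ↔ T j)) → ∀ i j, T i → T j
  flow : ∀ y : P → ℤ, S.Circ y → ∃ h : F → ℤ, ∀ e, y e = h (S.L e) - h (S.R e)

/-- `C`: one cut edge on every circle; the time `τ` increases along the other edges. -/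
structure Td (C : Finset P) (τ : P → ℕ) : Prop where
  ex : ∀ x : S.Ci, ∃ e ∈ C, S.ci e = x
  un : ∀ e ∈ C, ∀ e' ∈ C, S.ci e = S.ci e' → e = e'
  top : ∀ p, τ (S.op p) = τ p
  tnx : ∀ e, e ∉ C → τ e < τ (S.sg e)
  tinj : ∀ p q, τ p = τ q → q = p ∨ q = S.op p

/-- All circles have crossings on one side only. -/
def Special : Prop := ∀ p q, S.ci p = S.ci q → S.lf p = S.lf q

/-- The pairs of the circles at the crossings. -/
def pr (p : P) : S.Ci × S.Ci := (S.ci p, S.ci (S.op p))

end Sy

/-- The system of a shadow. -/
noncomputable def sy {P : Type} (G : Sh P) (ho : ∀ i, G.op i ≠ i) : Sy P (Face G) where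
  sg := Pool.Agent.Helper43.Pln.seifert G
  op := G.op
  lf := G.lf
  L := Lf G
  R := Rf G
  op_op := G.op_op
  lf_op p := G.lf_op p (ho p)
  west p hp := (corner_W hp (ho p)).symm
  east p hp := by
    have h1 : G.lf (G.op p) = true := by rw [G.lf_op p (ho p), hp]; rfl
    have h := corner_E h1 (ho _)
    rw [G.op_op] at h
    exact h
  south p hp := by
    have h := corner_S hp
    show Rf G (G.nxt.symm (G.op p)) = Lf G (G.nxt.symm (G.op (G.op p)))
    rw [G.op_op]
    exact h.symm
  north p hp := corner_N hp

end Pool.Agent.Helper60.S4
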