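import Pool.Agent.Helper60.S4.Special
import Pool.Agent.Helper2.PD.Cases3
import Pool.Agent.Helper57.S4.Walk

/-!
# The energy identity with two-sided circles on which the colouring is constant
-/

set_option autoImplicit false

namespace Pool.Agent.Helper60.S4

open Polynomial Matrix ComplexConjugate Pool.Agent.Helper85.Exp Pool.Agent.Helper60.EV2 Pool.Agent.Helper2.PD Pool.Agent.Helper16.PD
  Pool.Agent.Helper43.Pln

variable {P F : Type} {S : Sy P F}

/-- A circle with crossings on one side only. -/
def Sy.One (S : Sy P F) (x : S.Ci) : Prop := ∀ p q, S.ci p = x → S.ci q = x → S.lf p = S.lf q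

/-- Shifting a sum over the left (right) visits. -/
theorem Sy.shift [Fintype P] {A : Type*} [AddCommMonoid A] (b : Bool) (φ : P → A)
    (h : ∀ p, S.lf p = b → ¬ S.One (S.ci p) → φ (S.sg.symm p) = φ p) :
    (∑ p, if S.lf p = b then φ (S.sg.symm p) else 0) = ∑ p, if S.lf p = b then φ p else 0 := by
  classical
  have key : ∀ ψ : P → A, (∑ p, if S.lf p = b then ψ p else 0) =
      (∑ p, if S.lf p = b ∧ S.One (S.ci p) then ψ p else 0) + ∑ p, if S.lf p = b ∧ ¬ S.One (S.ci p) then ψ p else 0 := by
    intro ψ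
    rw [← Finset.sum_add_distrib]
    refine Finset.sum_congr rfl fun p _ => ?_
    by_cases h1 : S.lf p = b <;> by_cases h2 : S.One (S.ci p) <;> simp [h1, h2]
  rw [key, key]
  congr 1
  · rw [← Equiv.sum_comp S.sg]
    refine Finset.sum_congr rfl fun p _ => ?_
    rw [Equiv.symm_apply_apply]
    have h1 : (S.lf (S.sg p) = b ∧ S.One (S.ci (S.sg p))) ↔ (S.lf p = b ∧ S.One (S.ci p)) := by
      rw [S.ci_sg]
      refine and_congr_left fun h2 => ?_
      rw [h2 (S.sg p) p (S.ci_sg p) rfl]
    by_cases h2 : S.lf p = b ∧ S.One (S.ci p)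
    · rw [if_pos h2, if_pos (h1.2 h2)]
    · rw [if_neg h2, if_neg (fun h3 => h2 (h1.1 h3))]
  · refine Finset.sum_congr rfl fun p _ => ?_
    split_ifs with h2
    · exact h p h2.1 h2.2
    · rfl

/-- **The energy identity**: a colouring which is constant along the two-sided circles is constant along all circles. -/
theorem Sy.const_all [Fintype P] (c : F → ℂ) (s : ℂ) (h0 : s ≠ 0) (h1 : ‖s‖ ≠ 1)
    (hc : ∀ p, S.lf p = true → s⁻¹ * c (S.R p) + s * c (S.R (S.sg.symm p)) = c (S.L p) + c (S.R (S.op p)))
    (hL : ∀ p, ¬ S.One (S.ci p) → c (S.L (S.sg.symm p)) = c (S.L p))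
    (hR : ∀ p, ¬ S.One (S.ci p) → c (S.R (S.sg.symm p)) = c (S.R p)) :
    ∀ p, c (S.L (S.sg.symm p)) = c (S.L p) ∧ c (S.R (S.sg.symm p)) = c (S.R p) := by
  classical
  set N : P → ℂ := fun p => c (S.R p) with hN
  set M : P → ℂ := fun p => c (S.L p) with hM
  -- the sum over the left visits as a sum over the right visits
  have flip : ∀ φ : P → ℂ, (∑ p, if S.lf p = true then φ (S.op p) else 0) = ∑ p, if S.lf p = false then φ p else 0 := by
    intro φ
    have hi : Function.Involutive S.op := S.op_op
    rw [← Equiv.sum_comp hi.toPerm]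
    refine Finset.sum_congr rfl fun p _ => ?_
    show (if S.lf (S.op p) = true then φ (S.op (S.op p)) else 0) = _
    rw [S.op_op, S.lf_op]
    cases S.lf p <;> simp
  have e1 : ∑ p, (if S.lf p = true then c (S.L p) * conj (N p - N (S.sg.symm p)) else 0) = 0 := by
    have h2 := S.shift true (fun p => c (S.L p) * conj (N p)) (fun p _ hp => by
      show c (S.L (S.sg.symm p)) * conj (N (S.sg.symm p)) = c (S.L p) * conj (N p)
      rw [hL p hp]
      simp only [hN]
      rw [hR p hp])
    have h3 : ∑ p, (if S.lf p = true then c (S.L p) * conj (N p - N (S.sg.symm p)) else 0) =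
        (∑ p, if S.lf p = true then c (S.L p) * conj (N p) else 0) -
          ∑ p, if S.lf p = true then c (S.L (S.sg.symm p)) * conj (N (S.sg.symm p)) else 0 := by
      rw [← Finset.sum_sub_distrib]
      refine Finset.sum_congr rfl fun p _ => ?_
      split_ifs with hp
      · rw [S.west p hp, map_sub]
        ring
      · simp
    rw [h3, ← h2, sub_self]
  have e2 : ∑ p, (if S.lf p = true then c (S.R (S.op p)) * conj (N p - N (S.sg.symm p)) else 0) = 0 := by
    have h2 := S.shift false (fun p => c (S.R p) * conj (M p)) (fun p _ hp => by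
      show c (S.R (S.sg.symm p)) * conj (M (S.sg.symm p)) = c (S.R p) * conj (M p)
      rw [hR p hp]
      simp only [hM]
      rw [hL p hp])
    have h3 : ∑ p, (if S.lf p = true then c (S.R (S.op p)) * conj (N p - N (S.sg.symm p)) else 0) =
        ∑ p, if S.lf p = false then c (S.R p) * conj (M p - M (S.sg.symm p)) else 0 := by
      rw [← flip fun q => c (S.R q) * conj (M q - M (S.sg.symm q))]
      refine Finset.sum_congr rfl fun p _ => ?_
      split_ifs with hp
      · simp only [hN, hM]
        rw [S.north p hp, S.south p hp]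
      · rfl
    have h4 : ∑ p, (if S.lf p = false then c (S.R p) * conj (M p - M (S.sg.symm p)) else 0) =
        (∑ p, if S.lf p = false then c (S.R p) * conj (M p) else 0) -
          ∑ p, if S.lf p = false then c (S.R (S.sg.symm p)) * conj (M (S.sg.symm p)) else 0 := by
      rw [← Finset.sum_sub_distrib]
      refine Finset.sum_congr rfl fun p _ => ?_
      split_ifs with hp
      · rw [S.east p hp, map_sub]
        ring
      · simp
    rw [h3, h4, ← h2, sub_self]
  set A : ℝ := ∑ p, if S.lf p = true then Complex.normSq (N p) else 0 with hA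
  set X : ℂ := ∑ p, if S.lf p = true then N p * conj (N (S.sg.symm p)) else 0 with hX
  have hA' : A = ∑ p, if S.lf p = true then Complex.normSq (N (S.sg.symm p)) else 0 :=
    (S.shift true (fun p => Complex.normSq (N p)) (fun p _ hp => by
      simp only [hN]
      rw [hR p hp])).symm
  have hXc : conj X = ∑ p, if S.lf p = true then N (S.sg.symm p) * conj (N p) else 0 := by
    rw [hX, map_sum]
    refine Finset.sum_congr rfl fun p _ => ?_
    split_ifs
    · rw [map_mul, Complex.conj_conj, mul_comm]
    · exact map_zero _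
  have hAc : (A : ℂ) = ∑ p, if S.lf p = true then N p * conj (N p) else 0 := by
    rw [hA]
    push_cast
    refine Finset.sum_congr rfl fun p _ => ?_
    split_ifs
    · exact (Complex.mul_conj _).symm
    · simp
  have hAc' : (A : ℂ) = ∑ p, if S.lf p = true then N (S.sg.symm p) * conj (N (S.sg.symm p)) else 0 := by
    rw [hA']
    push_cast
    refine Finset.sum_congr rfl fun p _ => ?_
    split_ifs
    · exact (Complex.mul_conj _).symm
    · simp
  have e3 : s⁻¹ * ((A : ℂ) - X) - s * ((A : ℂ) - conj X) = 0 := by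
    have h2 : s⁻¹ * ((A : ℂ) - X) - s * ((A : ℂ) - conj X) =
        ∑ p, if S.lf p = true then (s⁻¹ * N p + s * N (S.sg.symm p)) * conj (N p - N (S.sg.symm p)) else 0 := by
      rw [hXc, hX]
      nth_rewrite 2 [hAc']
      rw [hAc, ← Finset.sum_sub_distrib, ← Finset.sum_sub_distrib, Finset.mul_sum, Finset.mul_sum, ← Finset.sum_sub_distrib]
      refine Finset.sum_congr rfl fun p _ => ?_
      split_ifs
      · rw [map_sub]
        ring
      · simp
    have h9 := congrArg₂ (· + ·) e1 e2
    simp only [add_zero] at h9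
    rw [← Finset.sum_add_distrib] at h9
    refine h2.trans (Eq.trans ?_ h9)
    refine Finset.sum_congr rfl fun p _ => ?_
    split_ifs with hp
    · rw [hc p hp]
      ring
    · simp
  have e4 : (A : ℂ) = X := by
    have h2 : s⁻¹ * ((A : ℂ) - X) = s * conj ((A : ℂ) - X) := by
      rw [map_sub, Complex.conj_ofReal]
      exact sub_eq_zero.1 e3
    have h3 := congrArg norm h2
    rw [norm_mul, norm_mul, norm_inv, Complex.norm_conj] at h3
    by_contra hne
    have h4 : 0 < ‖(A : ℂ) - X‖ := norm_pos_iff.2 (sub_ne_zero.2 hne)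
    have h5 : ‖s‖⁻¹ = ‖s‖ := mul_right_cancel₀ h4.ne' h3
    have h6 : 0 < ‖s‖ := norm_pos_iff.2 h0
    apply h1
    have h7 : ‖s‖ * ‖s‖ = 1 := by
      nth_rewrite 1 [← h5]
      exact inv_mul_cancel₀ h6.ne'
    nlinarith
  have e5 : ∑ p, (if S.lf p = true then Complex.normSq (N p - N (S.sg.symm p)) else 0) = 0 := by
    have h2 : ((∑ p, (if S.lf p = true then Complex.normSq (N p - N (S.sg.symm p)) else 0) : ℝ) : ℂ) =
        ((A : ℂ) - X) + ((A : ℂ) - conj X) := by
      rw [hXc, hX]
      nth_rewrite 2 [hAc']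
      rw [hAc, ← Finset.sum_sub_distrib, ← Finset.sum_sub_distrib, ← Finset.sum_add_distrib]
      push_cast
      refine Finset.sum_congr rfl fun p _ => ?_
      split_ifs
      · rw [← Complex.mul_conj, map_sub]
        ring
      · simp
    rw [← e4, Complex.conj_ofReal, sub_self, add_zero] at h2
    exact_mod_cast h2
  have e6 : ∀ p, S.lf p = true → N (S.sg.symm p) = N p := by
    intro p hp
    have h2 := (Finset.sum_eq_zero_iff_of_nonneg (fun p _ => by
      split_ifs
      · exact Complex.normSq_nonneg _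
      · exact le_rfl)).1 e5 p (Finset.mem_univ _)
    rw [if_pos hp, Complex.normSq_eq_zero, sub_eq_zero] at h2
    exact h2.symm
  have e7 : ∀ p, S.lf p = false → M (S.sg.symm p) = M p := by
    intro p hp
    have h2 : S.lf (S.op p) = true := by rw [S.lf_op, hp]; rfl
    have h3 := e6 _ h2
    have h4 := S.north _ h2
    have h5 := S.south _ h2
    rw [S.op_op] at h4 h5
    simp only [hN, hM] at h3 ⊢
    rw [← h4, ← h5, h3]
  intro p
  cases hp : S.lf p
  · exact ⟨e7 p hp, by rw [S.east p hp]⟩
  · exact ⟨by rw [S.west p hp], e6 p hp⟩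

/-- A colouring which is constant along the circles and vanishes at one edge vanishes. -/
theorem Sy.zero_of_const (hS : S.Good) (c : F → ℂ) (s : ℂ)
    (hc : ∀ p, S.lf p = true → s⁻¹ * c (S.R p) + s * c (S.R (S.sg.symm p)) = c (S.L p) + c (S.R (S.op p)))
    (h : ∀ p, c (S.L (S.sg.symm p)) = c (S.L p) ∧ c (S.R (S.sg.symm p)) = c (S.R p))
    (b : P) (hL : c (S.L b) = 0) (hR : c (S.R b) = 0) : ∀ f, c f = 0 := by
  have cR : ∀ e f, S.ci e = S.ci f → c (S.R e) = c (S.R f) := fun e f hef =>
    S.const_ci (fun p => c (S.R p)) (x := S.ci f) (fun p _ => (h p).2) hef rfl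
  have cL : ∀ e f, S.ci e = S.ci f → c (S.L e) = c (S.L f) := fun e f hef =>
    S.const_ci (fun p => c (S.L p)) (x := S.ci f) (fun p _ => (h p).1) hef rfl
  have hT := hS.conn (fun x => ∀ e, S.ci e = x → c (S.L e) = 0 ∧ c (S.R e) = 0) (by
    rintro i j ⟨p, hp, rfl, rfl⟩
    have hcp := hc p hp
    have hn := S.north p hp
    rw [(h p).2] at hcp
    constructor
    · intro h e he
      obtain ⟨h2, h3⟩ := h p rfl
      rw [h2, h3, mul_zero, mul_zero, zero_add, zero_add] at hcp
      refine ⟨?_, ?_⟩
      · rw [cL e _ he, ← hn, h3]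
      · rw [cR e _ he]
        exact hcp.symm
    · intro h e he
      obtain ⟨h2, h3⟩ := h (S.op p) rfl
      rw [← hn] at h2
      rw [h2, h3, mul_zero, mul_zero, zero_add, add_zero] at hcp
      refine ⟨?_, ?_⟩
      · rw [cL e _ he]
        exact hcp.symm
      · rw [cR e _ he, h2]) (S.ci b)
  intro f
  obtain ⟨p, hp⟩ := hS.surj f
  have h2 := hT (S.ci p) (fun e he => ⟨by rw [cL e b he, hL], by rw [cR e b he, hR]⟩) p rfl
  rcases hp with rfl | rfl
  · exact h2.1
  · exact h2.2

end Pool.Agent.Helper60.S4
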