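import Pool.Agent.Helper60.S4.Finish

/-!
# The energy identity for all colourings

`dd c p`: the change of the colour at the visit `p` (on the side of the crossing), `vv c p`: the colour on the other side.
`U = ∑ |dd|^2` over the crossings, `J = ∑ Im (vv * conj dd)` over the visits: `U (1 + |s|^2) = - 2 J Im s`.
-/

set_option autoImplicit false

namespace Pool.Agent.Helper60.S4

open ComplexConjugate

variable {P F : Type} (S : Sy P F)

/-- The change of the colour at a visit. -/
noncomputable def Sy.dd (c : F → ℂ) (p : P) : ℂ :=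
  if S.lf p = true then c (S.R p) - c (S.R (S.sg.symm p)) else c (S.L p) - c (S.L (S.sg.symm p))

/-- The colour on the side without crossing. -/
noncomputable def Sy.vv (c : F → ℂ) (p : P) : ℂ := if S.lf p = true then c (S.L p) else c (S.R p)

variable {S}

theorem Sy.dd_op (c : F → ℂ) (p : P) : S.dd c (S.op p) = S.dd c p := by
  unfold Sy.dd
  cases hp : S.lf p
  · have h1 : S.lf (S.op p) = true := by rw [S.lf_op, hp]; rfl
    have h2 := S.north _ h1
    have h3 := S.south _ h1
    rw [S.op_op] at h2 h3
    rw [h1, if_pos rfl, h2, h3]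
    simp
  · have h1 : S.lf (S.op p) = false := by rw [S.lf_op, hp]; rfl
    rw [h1, S.north p hp, S.south p hp]
    simp

/-- Shift of a sum over all visits. -/
theorem Sy.sum_symm [Fintype P] {A : Type*} [AddCommMonoid A] (φ : P → A) : ∑ p, φ (S.sg.symm p) = ∑ p, φ p :=
  Equiv.sum_comp S.sg.symm φ

theorem Sy.re_zero (c : F → ℂ) (p : P) : (S.vv c p * conj (S.dd c p)).re =
    (c (S.L p) * conj (c (S.R p))).re - (c (S.L (S.sg.symm p)) * conj (c (S.R (S.sg.symm p)))).re := by
  unfold Sy.vv Sy.dd
  cases hp : S.lf p
  · rw [S.east p hp]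
    simp only [Bool.false_eq_true, if_false, map_sub, Complex.mul_re, Complex.sub_re, Complex.conj_re, Complex.sub_im, Complex.conj_im]
    ring
  · rw [S.west p hp]
    simp only [if_true, map_sub, Complex.mul_re, Complex.sub_re, Complex.conj_re, Complex.sub_im, Complex.conj_im]
    ring

/-- A sum over the visits as a sum over the crossings. -/
theorem Sy.sum_pair [Fintype P] {A : Type*} [AddCommMonoid A] (φ : P → A) :
    ∑ p, φ p = ∑ p, if S.lf p = true then φ p + φ (S.op p) else 0 := by
  classical
  have hi : Function.Involutive S.op := S.op_op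
  have h1 : (∑ p, if S.lf p = false then φ p else 0) = ∑ p, if S.lf p = true then φ (S.op p) else 0 := by
    rw [← Equiv.sum_comp hi.toPerm]
    refine Finset.sum_congr rfl fun p _ => ?_
    show (if S.lf (S.op p) = false then φ (S.op p) else 0) = _
    rw [S.lf_op]
    cases S.lf p <;> simp
  calc ∑ p, φ p = (∑ p, if S.lf p = true then φ p else 0) + ∑ p, if S.lf p = false then φ p else 0 := by
        rw [← Finset.sum_add_distrib]
        refine Finset.sum_congr rfl fun p _ => ?_
        cases S.lf p <;> simp
    _ = _ := by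
        rw [h1, ← Finset.sum_add_distrib]
        refine Finset.sum_congr rfl fun p _ => ?_
        cases S.lf p <;> simp

/-- **The energy identity.** -/
theorem Sy.energy [Fintype P] (c : F → ℂ) (s : ℂ) (h0 : s ≠ 0) (h1 : ‖s‖ ≠ 1)
    (hc : ∀ p, S.lf p = true → s⁻¹ * c (S.R p) + s * c (S.R (S.sg.symm p)) = c (S.L p) + c (S.R (S.op p))) :
    (∑ p, if S.lf p = true then Complex.normSq (S.dd c p) else 0) * (1 + Complex.normSq s) =
      -(2 * (∑ p, (S.vv c p * conj (S.dd c p)).im) * s.im) := by
  classical
  set N : P → ℂ := fun p => c (S.R p) with hN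
  set J : ℝ := ∑ p, (S.vv c p * conj (S.dd c p)).im with hJ
  set U : ℝ := ∑ p, if S.lf p = true then Complex.normSq (S.dd c p) else 0 with hU
  set A : ℝ := ∑ p, if S.lf p = true then Complex.normSq (N p) else 0 with hA
  set X : ℂ := ∑ p, if S.lf p = true then N p * conj (N (S.sg.symm p)) else 0 with hX
  -- the total sum is `i J`
  have e1 : ∑ p, S.vv c p * conj (S.dd c p) = Complex.I * J := by
    apply Complex.ext
    · rw [Complex.re_sum, Finset.sum_congr rfl fun p _ => S.re_zero c p, Finset.sum_sub_distrib,
        S.sum_symm fun p => (c (S.L p) * conj (c (S.R p))).re, sub_self]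
      simp
    · rw [Complex.im_sum]
      simp [hJ]
  have e2 : ∑ p, S.vv c p * conj (S.dd c p) =
      ∑ p, if S.lf p = true then (s⁻¹ * N p + s * N (S.sg.symm p)) * conj (N p - N (S.sg.symm p)) else 0 := by
    rw [S.sum_pair]
    refine Finset.sum_congr rfl fun p _ => ?_
    split_ifs with hp
    · have h2 : S.lf (S.op p) = false := by rw [S.lf_op, hp]; rfl
      rw [S.dd_op, ← add_mul]
      have h3 : S.vv c p = c (S.L p) := if_pos hp
      have h4 : S.vv c (S.op p) = c (S.R (S.op p)) := if_neg (by rw [h2]; simp)
      have h5 : S.dd c p = N p - N (S.sg.symm p) := if_pos hp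
      rw [h3, h4, h5]
      simp only [hN]
      rw [hc p hp]
    · rfl
  have hA' : A = ∑ p, if S.lf p = true then Complex.normSq (N (S.sg.symm p)) else 0 := by
    have h2 := S.sum_symm fun p => Complex.normSq (c (S.R p))
    have h3 : ∀ φ : P → ℝ, ∑ p, φ p = (∑ p, if S.lf p = true then φ p else 0) + ∑ p, if S.lf p = false then φ p else 0 := by
      intro φ
      rw [← Finset.sum_add_distrib]
      refine Finset.sum_congr rfl fun p _ => ?_
      cases S.lf p <;> simp
    rw [h3, h3 fun p => Complex.normSq (c (S.R p))] at h2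
    have h4 : (∑ p, if S.lf p = false then Complex.normSq (c (S.R (S.sg.symm p))) else 0) =
        ∑ p, if S.lf p = false then Complex.normSq (c (S.R p)) else 0 := by
      refine Finset.sum_congr rfl fun p _ => ?_
      split_ifs with hp
      · rw [S.east p hp]
      · rfl
    rw [h4] at h2
    exact (add_right_cancel h2).symm
  have hXc : conj X = ∑ p, if S.lf p = true then N (S.sg.symm p) * conj (N p) else 0 := by
    rw [hX, map_sum]
    refine Finset.sum_congr rfl fun p _ => ?_
    split_ifs
    · rw [map_mul, Complex.conj_conj, mul_comm]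
    · exact map_zero _
  have hAc : (A : ℂ) = ∑ p, if S.lf p = true then N p * conj (N p) else 0 := by
    rw [hA]
    push_cast
    refine Finset.sum_congr rfl fun p _ => ?_
    split_ifs
    · exact (Complex.mul_conj _).symm
    · simp
  have hAc' : (A : ℂ) = ∑ p, if S.lf p = true then N (S.sg.symm p) * conj (N (S.sg.symm p)) else 0 := by
    rw [hA']
    push_cast
    refine Finset.sum_congr rfl fun p _ => ?_
    split_ifs
    · exact (Complex.mul_conj _).symm
    · simp
  have e3 : s⁻¹ * ((A : ℂ) - X) - s * ((A : ℂ) - conj X) = Complex.I * J := by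
    rw [← e1, e2, hXc, hX]
    nth_rewrite 2 [hAc']
    rw [hAc, ← Finset.sum_sub_distrib, ← Finset.sum_sub_distrib, Finset.mul_sum, Finset.mul_sum, ← Finset.sum_sub_distrib]
    refine Finset.sum_congr rfl fun p _ => ?_
    split_ifs
    · rw [map_sub]
      ring
    · simp
  have e5 : (U : ℂ) = ((A : ℂ) - X) + ((A : ℂ) - conj X) := by
    rw [hU, hXc, hX]
    nth_rewrite 2 [hAc']
    rw [hAc, ← Finset.sum_sub_distrib, ← Finset.sum_sub_distrib, ← Finset.sum_add_distrib]
    push_cast
    refine Finset.sum_congr rfl fun p _ => ?_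
    split_ifs with hp
    · have h5 : S.dd c p = N p - N (S.sg.symm p) := if_pos hp
      rw [h5, ← Complex.mul_conj, map_sub]
      ring
    · simp
  set w : ℂ := (A : ℂ) - X with hw
  have hwc : (A : ℂ) - conj X = conj w := by rw [hw, map_sub, Complex.conj_ofReal]
  rw [hwc] at e3 e5
  have e6 : w - s ^ 2 * conj w = Complex.I * J * s := by
    have h2 : (s⁻¹ * w - s * conj w) * s = Complex.I * J * s := by rw [e3]
    have h3 : (s⁻¹ * w - s * conj w) * s = s⁻¹ * s * w - s ^ 2 * conj w := by ring
    rw [← h2, h3, inv_mul_cancel₀ h0, one_mul]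
  have e7 : conj w - conj s ^ 2 * w = -(Complex.I * J * conj s) := by
    have h2 := congrArg conj e6
    rw [map_sub, map_mul, map_pow, Complex.conj_conj, map_mul, map_mul, Complex.conj_I, Complex.conj_ofReal] at h2
    rw [h2]
    ring
  have hss : s * conj s = ((Complex.normSq s : ℝ) : ℂ) := Complex.mul_conj s
  have e8 : w * (1 + (Complex.normSq s : ℝ)) = Complex.I * J * s := by
    have h2 : (w * (1 + (Complex.normSq s : ℝ)) - Complex.I * J * s) * (1 - (Complex.normSq s : ℝ)) = 0 := by
      rw [← hss]
      linear_combination e6 + s ^ 2 * e7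
    rcases mul_eq_zero.1 h2 with h3 | h3
    · exact sub_eq_zero.1 h3
    · exfalso
      have h4 : Complex.normSq s = 1 := by
        have h5 : ((Complex.normSq s : ℝ) : ℂ) = 1 := (sub_eq_zero.1 h3).symm
        exact_mod_cast h5
      rw [Complex.normSq_eq_norm_sq] at h4
      apply h1
      have h5 : 0 ≤ ‖s‖ := norm_nonneg s
      nlinarith
  have e9 : w.re * (1 + Complex.normSq s) = -(J * s.im) := by
    have h2 := congrArg Complex.re e8
    simp only [Complex.mul_re, Complex.add_re, Complex.one_re, Complex.ofReal_re, Complex.add_im, Complex.one_im, Complex.ofReal_im,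
      Complex.I_re, Complex.I_im, Complex.mul_im] at h2
    nlinarith [h2]
  have e10 : U = 2 * w.re := by
    have h2 := congrArg Complex.re e5
    rw [Complex.ofReal_re, Complex.add_re, Complex.conj_re] at h2
    linarith
  rw [e10]
  linear_combination 2 * e9

end Pool.Agent.Helper60.S4
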