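import Pool.Agent.Helper59.V8.Main
import Pool.Agent.Helper43.V6.Bridge
import Pool.Agent.Helper57.S4.Walk
import Pool.Agent.Helper60.S4.RDefs
import Pool.Agent.Helper69.S4.Fin4

/-!
# MIX: the criterion with weights at the crossings between circles which are not rigid
-/

set_option autoImplicit false

namespace Pool.Agent.Helper60.S4

open Complex Finset Polynomial Pool.Agent.Helper85.Exp Pool.Agent.Helper60.EV2 Pool.Agent.Helper2.PD Pool.Agent.Helper43.Pln Pool.Agent.Helper59.V8
  Pool.Agent.Helper30.VQ
open Pool.Agent.Helper57.S4 (Col sq)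
open Pool.Agent.Helper69.S4 (Sec exists_Sec)
open Pool.Agent.Helper43.V6 (weight lstep wt_eq)

variable {P : Type} [Fintype P] {G : Sh P}

omit [Fintype P] in
theorem pow_R {σ : Equiv.Perm P} {R : P → Prop} (hR : ∀ e, R (σ e) ↔ R e) (e : P) (k : ℕ) : R ((σ ^ k) e) ↔ R e := by
  induction k with
  | zero => rfl
  | succ k ih => rw [pow_succ', Equiv.Perm.mul_apply, hR, ih]

/-- **The criterion** if every colouring is constant along the circles with the property `R`. -/
theorem mix_of (hG : Plane G) {nab : Dg G → ℤ[X]} (hn : Cs nab) {α : ℝ} (h0 : 0 ≤ α) (h1 : α ≤ 1) {R : P → Prop}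
    (hR : ∀ e, R (seifert G e) ↔ R e)
    (hloc : ∀ s : ℂ, Sec s → ∀ c : Face G → ℂ, Col G s c → ∀ a, R a → c (Lf G (sq G a)) = c (Lf G a) ∧ c (Rf G (sq G a)) = c (Rf G a))
    (h : ∀ p, ¬ R p → ¬ R (G.op p) → weight α G p + weight α G (G.op p) ≤ √3 + 9 / 10 * α) :
    LogConcave G nab ∧ ∀ z : ℂ, aeval z (nab (allPos G)) = 0 → 3 * z.re ^ 2 ≤ z.im ^ 2 := by
  classical
  have ho := hG.cross
  have key : ∀ z : ℂ, aeval z (nab (allPos G)) = 0 → 3 * z.re ^ 2 ≤ z.im ^ 2 := by
    intro z hz
    by_contra hcon
    push Not at hcon
    obtain ⟨s, hs, rfl⟩ := exists_Sec hcon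
    have hs1 : normSq s < 1 := by
      rw [normSq_eq_norm_sq]
      have h2 := hs.lt
      have h3 := norm_nonneg s
      nlinarith
    have h3 := lens hG nab hn hs.ne hs1.ne hz (B := √3 + 9 / 10 * α) h0 (fun e => if R e then 0 else wt α (seifert G) (lstep G) e)
      (fun e => by
        by_cases he : R e
        · rw [if_pos he, if_pos ((hR e).2 he)]
        · rw [if_neg he, if_neg fun h => he ((hR e).1 h), wt_apply]) (fun c hc => by
        have hC : Col G s c := fun x hx => hc ⟨x, hx⟩
        refine ⟨fun e => ?_, fun x hx => ?_⟩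
        · by_cases he : R e
          · have h4 : ∀ k : ℕ, c (Lf G ((seifert G ^ (k + 1)) e)) = c (Lf G ((seifert G ^ k) e)) ∧
                c (Rf G ((seifert G ^ (k + 1)) e)) = c (Rf G ((seifert G ^ k) e)) := by
              intro k
              rw [pow_succ', Equiv.Perm.mul_apply]
              exact hloc s hs c hC _ ((pow_R hR e k).2 he)
            have h5 : ∀ k, fj (c (Lf G ((seifert G ^ k) e))) (c (Rf G ((seifert G ^ k) e))) (c (Lf G ((seifert G ^ (k + 1)) e)))
                (c (Rf G ((seifert G ^ (k + 1)) e))) = 0 := by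
              intro k
              rw [(h4 k).1, (h4 k).2]
              unfold fj
              simp
            have h6 : ∀ k, fa (c (Lf G ((seifert G ^ k) e))) (c (Rf G ((seifert G ^ k) e))) (c (Lf G ((seifert G ^ (k + 1)) e)))
                (c (Rf G ((seifert G ^ (k + 1)) e))) = 0 := by
              intro k
              rw [(h4 k).1, (h4 k).2]
              unfold fa
              simp only [mul_im, conj_re, conj_im]
              ring
            simp only [h5, h6, Finset.sum_const_zero, abs_zero, mul_zero, add_zero, if_pos he, zero_mul, le_refl]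
          · rw [if_neg he]
            refine cycle_wt h0 h1 (seifert G) (fun e => c (Lf G e)) (fun e => c (Rf G e)) (lstep G) (fun e he => ?_) (fun e he => ?_) e
            · show c (Rf G (seifert G e)) = c (Rf G e)
              rw [step_true ho he]
            · show c (Lf G (seifert G e)) = c (Lf G e)
              rw [step_false ho he]
        · have e1 : seifert G (G.nxt.symm x.1) = G.op x.1 := by
            rw [seifert_apply, Equiv.apply_symm_apply]
          have e2 : seifert G (G.nxt.symm (G.op x.1)) = x.1 := by
            rw [seifert_apply, Equiv.apply_symm_apply, G.op_op]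
          have n1 : ¬ R (G.nxt.symm x.1) := by
            intro h4
            have h5 := (hloc s hs c hC _ h4).1
            have h6 : sq G (G.nxt.symm x.1) = G.op x.1 := e1
            rw [h6, ← corner_N x.2] at h5
            exact hx h5
          have n2 : ¬ R (G.nxt.symm (G.op x.1)) := by
            intro h4
            have h5 := (hloc s hs c hC _ h4).2
            have h6 : sq G (G.nxt.symm (G.op x.1)) = x.1 := e2
            rw [h6, ← corner_S x.2] at h5
            exact hx h5
          have m1 : ¬ R (G.op x.1) := fun h => n1 ((hR _).1 (by rw [e1]; exact h))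
          have m2 : ¬ R x.1 := fun h => n2 ((hR _).1 (by rw [e2]; exact h))
          have h7 := h x.1 m2 m1
          rw [if_neg n1, if_neg n2, ← wt_apply α (seifert G) (lstep G) (G.nxt.symm x.1), ← wt_apply α (seifert G) (lstep G) (G.nxt.symm (G.op x.1)),
            e1, e2, wt_eq ho, wt_eq ho]
          linarith)
    have h4 : 3 * (s⁻¹ - s).re ^ 2 ≤ (s⁻¹ - s).im ^ 2 := by
      refine sector_s hs.ne fun _ => ?_
      apply sector_of h0 h1
      rw [normSq_apply] at h3
      have e : s.re * s.re + s.im * s.im = s.re ^ 2 + s.im ^ 2 := by ring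
      rw [e] at h3
      exact h3
    linarith
  exact ⟨lc_of_sector hG nab hn key, key⟩

end Pool.Agent.Helper60.S4
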