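import Pool.Agent.Helper60.S4.Defs

/-!
# Special positive diagrams: the Conway polynomial has no zero `1/s - s` with `|s| ≠ 1`
-/

set_option autoImplicit false

namespace Pool.Agent.Helper60.S4

open Polynomial Matrix ComplexConjugate Pool.Agent.Helper85.Exp Pool.Agent.Helper60.EV2 Pool.Agent.Helper2.PD Pool.Agent.Helper16.PD
  Pool.Agent.Helper43.Pln

variable {P F : Type} (S : Sy P F)

/-- A function without jumps is constant on a circle. -/
theorem Sy.const_ci {A : Type*} (φ : P → A) {x : S.Ci} (h : ∀ p, S.ci p = x → φ (S.sg.symm p) = φ p) {e f : P} (he : S.ci e = x)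
    (hf : S.ci f = x) : φ e = φ f := by
  have h1 : ∀ p, S.ci p = x → φ (S.sg p) = φ p := by
    intro p hp
    have h2 := h (S.sg p) (by rw [S.ci_sg, hp])
    rw [Equiv.symm_apply_apply] at h2
    exact h2.symm
  have h3 : ∀ (n : ℕ) (p : P), S.ci p = x → S.ci ((S.sg ^ n) p) = x ∧ φ ((S.sg ^ n) p) = φ p := by
    intro n
    induction n with
    | zero => exact fun p hp => ⟨hp, rfl⟩
    | succ n ih =>
      intro p hp
      rw [pow_succ', Equiv.Perm.mul_apply]
      obtain ⟨h4, h5⟩ := ih p hp
      exact ⟨by rw [S.ci_sg, h4], by rw [h1 _ h4, h5]⟩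
  have h4 : S.sg.SameCycle e f := Quotient.exact (he.trans hf.symm)
  obtain ⟨n, hn⟩ := h4
  cases n with
  | ofNat n =>
    have h5 := (h3 n e he).2
    rw [← h5]
    congr 1
  | negSucc n =>
    have h5 := (h3 (n + 1) f hf).2
    rw [← h5]
    congr 1
    rw [← hn, zpow_negSucc, ← Equiv.Perm.mul_apply, mul_inv_cancel, Equiv.Perm.one_apply]

variable {S}

theorem Sy.Special.lf_sg (h : S.Special) (p : P) : S.lf (S.sg p) = S.lf p := h _ _ (S.ci_sg p)

theorem Sy.Special.lf_symm (h : S.Special) (p : P) : S.lf (S.sg.symm p) = S.lf p := h _ _ (S.ci_symm p)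

/-- Shifting a sum over the left visits. -/
theorem Sy.Special.shift [Fintype P] {A : Type*} [AddCommMonoid A] (h : S.Special) (b : Bool) (φ : P → A) :
    (∑ p, if S.lf p = b then φ (S.sg.symm p) else 0) = ∑ p, if S.lf p = b then φ p else 0 := by
  rw [← Equiv.sum_comp S.sg]
  refine Finset.sum_congr rfl fun p _ => ?_
  rw [h.lf_sg, Equiv.symm_apply_apply]

/-- **The energy identity.** -/
theorem Sy.Special.zero [Fintype P] (hS : S.Good) (hsp : S.Special) (c : F → ℂ) (s : ℂ) (h0 : s ≠ 0) (h1 : ‖s‖ ≠ 1)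
    (hc : ∀ p, S.lf p = true → s⁻¹ * c (S.R p) + s * c (S.R (S.sg.symm p)) = c (S.L p) + c (S.R (S.op p)))
    (b : P) (hL : c (S.L b) = 0) (hR : c (S.R b) = 0) : ∀ f, c f = 0 := by
  classical
  set N : P → ℂ := fun p => c (S.R p) with hN
  set M : P → ℂ := fun p => c (S.L p) with hM
  -- the sum over the left visits as a sum over the right visits
  have flip : ∀ φ : P → ℂ, (∑ p, if S.lf p = true then φ (S.op p) else 0) = ∑ p, if S.lf p = false then φ p else 0 := by
    intro φ
    have hi : Function.Involutive S.op := S.op_op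
    rw [← Equiv.sum_comp hi.toPerm]
    refine Finset.sum_congr rfl fun p _ => ?_
    show (if S.lf (S.op p) = true then φ (S.op (S.op p)) else 0) = _
    rw [S.op_op, S.lf_op]
    cases S.lf p <;> simp
  have e1 : ∑ p, (if S.lf p = true then c (S.L p) * conj (N p - N (S.sg.symm p)) else 0) = 0 := by
    have h2 := hsp.shift true fun p => c (S.L p) * conj (N p)
    have h3 : ∑ p, (if S.lf p = true then c (S.L p) * conj (N p - N (S.sg.symm p)) else 0) =
        (∑ p, if S.lf p = true then c (S.L p) * conj (N p) else 0) -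
          ∑ p, if S.lf p = true then c (S.L (S.sg.symm p)) * conj (N (S.sg.symm p)) else 0 := by
      rw [← Finset.sum_sub_distrib]
      refine Finset.sum_congr rfl fun p _ => ?_
      split_ifs with hp
      · rw [S.west p hp, map_sub]
        ring
      · simp
    rw [h3, ← h2, sub_self]
  have e2 : ∑ p, (if S.lf p = true then c (S.R (S.op p)) * conj (N p - N (S.sg.symm p)) else 0) = 0 := by
    have h2 := hsp.shift false fun p => c (S.R p) * conj (M p)
    have h3 : ∑ p, (if S.lf p = true then c (S.R (S.op p)) * conj (N p - N (S.sg.symm p)) else 0) =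
        ∑ p, if S.lf p = false then c (S.R p) * conj (M p - M (S.sg.symm p)) else 0 := by
      rw [← flip fun q => c (S.R q) * conj (M q - M (S.sg.symm q))]
      refine Finset.sum_congr rfl fun p _ => ?_
      split_ifs with hp
      · simp only [hN, hM]
        rw [S.north p hp, S.south p hp]
      · rfl
    have h4 : ∑ p, (if S.lf p = false then c (S.R p) * conj (M p - M (S.sg.symm p)) else 0) =
        (∑ p, if S.lf p = false then c (S.R p) * conj (M p) else 0) -
          ∑ p, if S.lf p = false then c (S.R (S.sg.symm p)) * conj (M (S.sg.symm p)) else 0 := by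
      rw [← Finset.sum_sub_distrib]
      refine Finset.sum_congr rfl fun p _ => ?_
      split_ifs with hp
      · rw [S.east p hp, map_sub]
        ring
      · simp
    rw [h3, h4, ← h2, sub_self]
  set A : ℝ := ∑ p, if S.lf p = true then Complex.normSq (N p) else 0 with hA
  set X : ℂ := ∑ p, if S.lf p = true then N p * conj (N (S.sg.symm p)) else 0 with hX
  have hA' : A = ∑ p, if S.lf p = true then Complex.normSq (N (S.sg.symm p)) else 0 :=
    (hsp.shift true fun p => Complex.normSq (N p)).symm
  have hXc : conj X = ∑ p, if S.lf p = true then N (S.sg.symm p) * conj (N p) else 0 := by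
    rw [hX, map_sum]
    refine Finset.sum_congr rfl fun p _ => ?_
    split_ifs
    · rw [map_mul, Complex.conj_conj, mul_comm]
    · exact map_zero _
  have e3 : s⁻¹ * ((A : ℂ) - X) - s * ((A : ℂ) - conj X) = 0 := by
    have h2 : s⁻¹ * ((A : ℂ) - X) - s * ((A : ℂ) - conj X) =
        ∑ p, if S.lf p = true then (s⁻¹ * N p + s * N (S.sg.symm p)) * conj (N p - N (S.sg.symm p)) else 0 := by
      rw [hXc, hX]
      have hAc : (A : ℂ) = ∑ p, if S.lf p = true then N p * conj (N p) else 0 := by
        rw [hA]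
        push_cast
        refine Finset.sum_congr rfl fun p _ => ?_
        split_ifs
        · exact (Complex.mul_conj _).symm
        · simp
      have hAc' : (A : ℂ) = ∑ p, if S.lf p = true then N (S.sg.symm p) * conj (N (S.sg.symm p)) else 0 := by
        rw [hA']
        push_cast
        refine Finset.sum_congr rfl fun p _ => ?_
        split_ifs
        · exact (Complex.mul_conj _).symm
        · simp
      nth_rewrite 2 [hAc']
      rw [hAc, ← Finset.sum_sub_distrib, ← Finset.sum_sub_distrib, Finset.mul_sum, Finset.mul_sum, ← Finset.sum_sub_distrib]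
      refine Finset.sum_congr rfl fun p _ => ?_
      split_ifs
      · rw [map_sub]
        ring
      · simp
    have h9 := congrArg₂ (· + ·) e1 e2
    simp only [add_zero] at h9
    rw [← Finset.sum_add_distrib] at h9
    refine h2.trans (Eq.trans ?_ h9)
    refine Finset.sum_congr rfl fun p _ => ?_
    split_ifs with hp
    · rw [hc p hp]
      ring
    · simp
  have e4 : (A : ℂ) = X := by
    have h2 : s⁻¹ * ((A : ℂ) - X) = s * conj ((A : ℂ) - X) := by
      rw [map_sub, Complex.conj_ofReal]
      exact sub_eq_zero.1 e3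
    have h3 := congrArg norm h2
    rw [norm_mul, norm_mul, norm_inv, Complex.norm_conj] at h3
    by_contra hne
    have h4 : 0 < ‖(A : ℂ) - X‖ := norm_pos_iff.2 (sub_ne_zero.2 hne)
    have h5 : ‖s‖⁻¹ = ‖s‖ := mul_right_cancel₀ h4.ne' h3
    have h6 : 0 < ‖s‖ := norm_pos_iff.2 h0
    apply h1
    have h7 : ‖s‖ * ‖s‖ = 1 := by
      nth_rewrite 1 [← h5]
      exact inv_mul_cancel₀ h6.ne'
    nlinarith
  have e5 : ∑ p, (if S.lf p = true then Complex.normSq (N p - N (S.sg.symm p)) else 0) = 0 := by
    have h2 : ((∑ p, (if S.lf p = true then Complex.normSq (N p - N (S.sg.symm p)) else 0) : ℝ) : ℂ) =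
        ((A : ℂ) - X) + ((A : ℂ) - conj X) := by
      have hAc : (A : ℂ) = ∑ p, if S.lf p = true then N p * conj (N p) else 0 := by
        rw [hA]
        push_cast
        refine Finset.sum_congr rfl fun p _ => ?_
        split_ifs
        · exact (Complex.mul_conj _).symm
        · simp
      have hAc' : (A : ℂ) = ∑ p, if S.lf p = true then N (S.sg.symm p) * conj (N (S.sg.symm p)) else 0 := by
        rw [hA']
        push_cast
        refine Finset.sum_congr rfl fun p _ => ?_
        split_ifs
        · exact (Complex.mul_conj _).symm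
        · simp
      rw [hXc, hX]
      nth_rewrite 2 [hAc']
      rw [hAc, ← Finset.sum_sub_distrib, ← Finset.sum_sub_distrib, ← Finset.sum_add_distrib]
      push_cast
      refine Finset.sum_congr rfl fun p _ => ?_
      split_ifs
      · rw [← Complex.mul_conj, map_sub]
        ring
      · simp
    rw [← e4, Complex.conj_ofReal, sub_self, add_zero] at h2
    exact_mod_cast h2
  have e6 : ∀ p, S.lf p = true → N (S.sg.symm p) = N p := by
    intro p hp
    have h2 := (Finset.sum_eq_zero_iff_of_nonneg (fun p _ => by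
      split_ifs
      · exact Complex.normSq_nonneg _
      · exact le_rfl)).1 e5 p (Finset.mem_univ _)
    rw [if_pos hp, Complex.normSq_eq_zero, sub_eq_zero] at h2
    exact h2.symm
  have e7 : ∀ p, S.lf p = false → M (S.sg.symm p) = M p := by
    intro p hp
    have h2 : S.lf (S.op p) = true := by rw [S.lf_op, hp]; rfl
    have h3 := e6 _ h2
    have h4 := S.north _ h2
    have h5 := S.south _ h2
    rw [S.op_op] at h4 h5
    simp only [hN, hM] at h3 ⊢
    rw [← h4, ← h5, h3]
  -- both sides of an edge are constant along the circles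
  have cR : ∀ e f, S.ci e = S.ci f → c (S.R e) = c (S.R f) := by
    intro e f hef
    refine S.const_ci (fun p => c (S.R p)) (x := S.ci f) ?_ hef rfl
    intro p _
    show c (S.R (S.sg.symm p)) = c (S.R p)
    cases hp : S.lf p
    · rw [S.east p hp]
    · exact e6 p hp
  have cL : ∀ e f, S.ci e = S.ci f → c (S.L e) = c (S.L f) := by
    intro e f hef
    refine S.const_ci (fun p => c (S.L p)) (x := S.ci f) ?_ hef rfl
    intro p _
    show c (S.L (S.sg.symm p)) = c (S.L p)
    cases hp : S.lf p
    · exact e7 p hp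
    · rw [S.west p hp]
  have hT := hS.conn (fun x => ∀ e, S.ci e = x → c (S.L e) = 0 ∧ c (S.R e) = 0) (by
    rintro i j ⟨p, hp, rfl, rfl⟩
    have hcp := hc p hp
    have hn := S.north p hp
    have e8 := e6 p hp
    simp only [hN] at e8
    rw [e8] at hcp
    constructor
    · intro h e he
      obtain ⟨h2, h3⟩ := h p rfl
      rw [h2, h3, mul_zero, mul_zero, zero_add, zero_add] at hcp
      refine ⟨?_, ?_⟩
      · rw [cL e _ he, ← hn, h3]
      · rw [cR e _ he]
        exact hcp.symm
    · intro h e he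
      obtain ⟨h2, h3⟩ := h (S.op p) rfl
      rw [← hn] at h2
      rw [h2, h3, mul_zero, mul_zero, zero_add, add_zero] at hcp
      refine ⟨?_, ?_⟩
      · rw [cL e _ he]
        exact hcp.symm
      · rw [cR e _ he, h2]) (S.ci b)
  intro f
  obtain ⟨p, hp⟩ := hS.surj f
  have h2 := hT (S.ci p) (fun e he => ⟨by rw [cL e b he, hL], by rw [cR e b he, hR]⟩) p rfl
  rcases hp with rfl | rfl
  · exact h2.1
  · exact h2.2

/-- The coloring of the faces attached to a zero. -/
theorem exists_col [Fintype P] {G : Sh P} (h : Plane G) (nab : Dg G → ℤ[X]) (hn : Cs nab) (s : ℂ) (h0 : s ≠ 0)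
    (hz : aeval (s⁻¹ - s) (nab (allPos G)) = 0) : ∃ (c : Face G → ℂ) (b : P), c (Lf G b) = 0 ∧ c (Rf G b) = 0 ∧ (∃ f, c f ≠ 0) ∧
      ∀ p, G.lf p = true → s⁻¹ * c (Rf G p) + s * c (Lf G (G.nxt.symm p)) = c (Lf G p) + c (Rf G (G.op p)) := by
  classical
  have hne := nonempty_of h
  obtain ⟨b⟩ := hne
  obtain ⟨κ, hκ⟩ := exists_kappa h.conn h.cross h.genus
  obtain ⟨ε⟩ := Pool.Agent.Helper60.PD.exists_eq h.conn h.cross h.genus b
  let _ : Fintype (Face G) := Fintype.ofFinite _
  obtain ⟨c0, hc0, H⟩ := Pool.Agent.Helper60.PD.nab_dehn (faceFa G h.cross) h.conn κ hκ b ε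
  set u : ℂˣ := Units.mk0 s h0 with hu
  have h1 := H nab hn ℂ u (allPos G)
  rw [Units.val_inv_eq_inv_val, hu, Units.val_mk0, hz] at h1
  set Dn : Matrix (Cr G) (Cr G) ℂ := Matrix.of fun x y : Cr G => (faceFa G h.cross).dn s s⁻¹ (allPos G) x (ε y).1 with hDn
  have h2 : Dn.det = 0 := by
    rcases mul_eq_zero.1 h1.symm with h3 | h3
    · exfalso
      rcases hc0 with rfl | rfl <;> norm_num at h3
    · exact h3
  obtain ⟨a, ha, hDa⟩ := Matrix.exists_mulVec_eq_zero_iff.2 h2
  set c : Face G → ℂ := fun f => if hf : f ≠ (faceFa G h.cross).L (G.nxt.symm b) ∧ f ≠ (faceFa G h.cross).R (G.nxt.symm b) then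
    a (ε.symm ⟨f, hf⟩) else 0 with hc
  have hcL : c (Lf G (G.nxt.symm b)) = 0 := by
    rw [hc]
    exact dif_neg (fun hh => hh.1 rfl)
  have hcR : c (Rf G (G.nxt.symm b)) = 0 := by
    rw [hc]
    exact dif_neg (fun hh => hh.2 rfl)
  have hcy : ∀ y : Cr G, c (ε y).1 = a y := by
    intro y
    rw [hc]
    simp only
    rw [dif_pos (ε y).2]
    simp
  refine ⟨c, G.nxt.symm b, hcL, hcR, ?_, ?_⟩
  · by_contra hcon
    push Not at hcon
    apply ha
    ext y
    rw [← hcy]
    exact hcon _
  · intro p hp
    have h3 := congrFun hDa ⟨p, hp⟩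
    rw [Pi.zero_apply, Matrix.mulVec, dotProduct] at h3
    have h4 : ∀ f : Face G, (∑ y : Cr G, (if f = (ε y).1 then 1 else 0) * a y) = c f := by
      intro f
      by_cases hf : f ≠ (faceFa G h.cross).L (G.nxt.symm b) ∧ f ≠ (faceFa G h.cross).R (G.nxt.symm b)
      · rw [Finset.sum_eq_single (ε.symm ⟨f, hf⟩)]
        · rw [Equiv.apply_symm_apply, if_pos rfl, one_mul, ← hcy, Equiv.apply_symm_apply]
        · intro y _ hy
          rw [if_neg, zero_mul]
          intro hfy
          apply hy
          rw [Equiv.eq_symm_apply]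
          exact Subtype.ext hfy.symm
        · intro hh
          exact absurd (Finset.mem_univ _) hh
      · have h5 : c f = 0 := by
          rw [hc]
          exact dif_neg hf
        rw [h5]
        refine Finset.sum_eq_zero fun y _ => ?_
        rw [if_neg, zero_mul]
        intro hfy
        exact hf (hfy ▸ (ε y).2)
    have h5 : ∀ y : Cr G, Dn ⟨p, hp⟩ y * a y = s⁻¹ * ((if Rf G p = (ε y).1 then 1 else 0) * a y) +
        s * ((if Lf G (G.nxt.symm p) = (ε y).1 then 1 else 0) * a y) - (if Lf G p = (ε y).1 then 1 else 0) * a y -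
          (if Rf G (G.op p) = (ε y).1 then 1 else 0) * a y := by
      intro y
      show ((if Rf G p = (ε y).1 then s⁻¹ else 0) + (if Lf G (G.nxt.symm p) = (ε y).1 then s else 0) -
        (if Lf G p = (ε y).1 then 1 else 0) - if Rf G (G.op p) = (ε y).1 then 1 else 0) * a y = _
      split_ifs <;> ring
    rw [Finset.sum_congr rfl fun y _ => h5 y, Finset.sum_sub_distrib, Finset.sum_sub_distrib, Finset.sum_add_distrib, ← Finset.mul_sum,
      ← Finset.mul_sum, h4, h4, h4, h4] at h3
    linear_combination h3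

/-- (H) special diagrams -/
theorem special_ne [Fintype P] [DecidableEq P] (G : Sh P) (h : Plane G) (hgood : (sy G h.cross).Good) (hsp : (sy G h.cross).Special)
    (nab : Dg G → ℤ[X]) (hn : Cs nab) (s : ℂ) (h0 : s ≠ 0) (h1 : ‖s‖ < 1) : aeval (s⁻¹ - s) (nab (allPos G)) ≠ 0 := by
  intro hz
  obtain ⟨c, b, h2, h3, ⟨f, hf⟩, h4⟩ := exists_col h nab hn s h0 hz
  apply hf
  refine Sy.Special.zero hgood hsp c s h0 h1.ne (fun p hp => ?_) b h2 h3 f
  have h5 := h4 p hp
  have h6 : Rf G ((seifert G).symm p) = Lf G (G.nxt.symm p) := (corner_S hp).symm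
  show s⁻¹ * c (Rf G p) + s * c (Rf G ((seifert G).symm p)) = c (Lf G p) + c (Rf G (G.op p))
  rw [h6]
  exact h5

end Pool.Agent.Helper60.S4
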